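import Pool.Agent.W61.AJK.NStage

open MvPolynomial
open scoped Classical

namespace Pool.Agent.W61.AJK

open Pool.H433AJT

/-- A finite family of vectors of `F_p^n` (`p ≥ 12 k^3` prime) such that every subspace `W`
contains at most `k dim W` members: the linear forms can simultaneously avoid arbitrary values. -/
theorem main_general {p n k : ℕ} [hp : Fact p.Prime] (hk : 1 ≤ k) (hkp : 12 * k ^ 3 ≤ p)
    {ι : Type} [Fintype ι] (v : ι → Fin n → ZMod p) (c : ι → ZMod p)
    (h : ∀ W : Submodule (ZMod p) (Fin n → ZMod p),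
      (Finset.univ.filter fun i => v i ∈ W).card ≤ k * Module.finrank (ZMod p) W) :
    ∃ x : Fin n → ZMod p, ∀ i, (∑ l, v i l * x l) ≠ c i := by
  apply f_NULL p n ι v c
  have h0 : ∀ i, v i ∉ (⊥ : Submodule (ZMod p) (Vec p n)) := by
    intro i hi
    have h1 := h ⊥
    rw [finrank_bot, mul_zero, Nat.le_zero, Finset.card_eq_zero] at h1
    have h2 : i ∈ Finset.univ.filter fun i => v i ∈ (⊥ : Submodule (ZMod p) (Fin n → ZMod p)) :=
      Finset.mem_filter.2 ⟨Finset.mem_univ _, hi⟩
    rw [h1] at h2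
    exact absurd h2 (Finset.notMem_empty i)
  have hkp' : 6 * (k : ℤ) ^ 2 * (2 * k - 1) ≤ p := by
    have h1 : (12 : ℤ) * k ^ 3 ≤ p := by exact_mod_cast hkp
    have h2 : (0 : ℤ) ≤ 6 * (k : ℤ) ^ 2 := by positivity
    nlinarith
  refine nstage hk hkp' v _ ⊥ Finset.univ rfl ⟨fun i _ => h0 i, fun W _ => ?_⟩
  have h1 := dd_le_nn v ⊥ Finset.univ W
  have h2 : nn v Finset.univ W ≤ k * Module.finrank (ZMod p) W := by
    unfold nn
    exact_mod_cast h W
  rw [finrank_bot]
  push_cast
  linarith

/-- `k` invertible matrices over `F_p`, `p ≥ 12 k^3` prime, arbitrary forbidden values. -/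
theorem main_matrices {p n k : ℕ} [hp : Fact p.Prime] (hk : 1 ≤ k) (hkp : 12 * k ^ 3 ≤ p)
    (M : Fin k → Matrix (Fin n) (Fin n) (ZMod p)) (hM : ∀ i, IsUnit (M i).det)
    (c : Fin k → Fin n → ZMod p) :
    ∃ x : Fin n → ZMod p, ∀ i j, (M i).mulVec x j ≠ c i j := by
  obtain ⟨x, hx⟩ := main_general hk hkp (ι := Fin k × Fin n) (fun a => M a.1 a.2)
    (fun a => c a.1 a.2) (by
      intro W
      have hr : ∀ i, LinearIndependent (ZMod p) (fun j : Fin n => M i j) := by
        intro i
        have h1 : LinearIndependent (ZMod p) (M i).row := by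
          rw [Matrix.linearIndependent_rows_iff_isUnit, Matrix.isUnit_iff_isUnit_det]
          exact hM i
        exact h1
      have h1 : (Finset.univ.filter fun a : Fin k × Fin n => M a.1 a.2 ∈ W).card =
          ∑ i : Fin k, (Finset.univ.filter fun j : Fin n => M i j ∈ W).card := by
        rw [Finset.card_filter, Fintype.sum_prod_type]
        refine Finset.sum_congr rfl fun i _ => ?_
        rw [Finset.card_filter]
      rw [h1]
      calc ∑ i : Fin k, (Finset.univ.filter fun j : Fin n => M i j ∈ W).card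
          ≤ ∑ _i : Fin k, Module.finrank (ZMod p) W :=
            Finset.sum_le_sum fun i _ => TWOB_cnt _ (hr i) W
        _ = k * Module.finrank (ZMod p) W := by simp)
  exact ⟨x, fun i j => hx (i, j)⟩

end Pool.Agent.W61.AJK
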