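import Pool.Agent.H433R2.AJT.Basic

open scoped Classical

namespace Pool.Agent.W61.AJK

open Pool.H433AJT

section defs
variable {F V ι : Type} [Field F] [AddCommGroup V] [Module F V]

/-- rules of the game -/
structure GR (s σ : ℤ) (v : ι → V) (m : ι → ℕ)
    (Z : Submodule F V → Finset ι → ℤ → Prop) : Prop where
  mono : ∀ U I b b', b ≤ b' → Z U I b → Z U I b'
  empty : ∀ U b, 1 ≤ b → Z U ∅ b
  R1 : ∀ U I b i, i ∉ I → v i ∉ U → (m i : ℤ) ≤ s → Z U I (b - m i) →
    Z (jn U (v i)) I (b + σ - m i) → Z U (insert i I) b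
  R2 : ∀ U I b i, i ∉ I → v i ∉ U → (m i : ℤ) ≤ s → Z U I b →
    Z (jn U (v i)) I (b + s - m i) → Z U (insert i I) b
  loop : ∀ U I b i, i ∉ I → v i ∈ U → 1 ≤ m i → (m i : ℤ) ≤ s → Z U I (b - s) →
    Z U (insert i I) b

/-- the number of classes modulo `W` -/
noncomputable def eps (v : ι → V) (J : Finset ι) (W : Submodule F V) : ℤ :=
  (((J.filter fun i => v i ∉ W).image fun i => jn W (v i)).card : ℤ)

/-- the density excess -/
noncomputable def ff (k : ℤ) (v : ι → V) (U : Submodule F V) (J : Finset ι)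
    (W : Submodule F V) : ℤ :=
  nn v J W - k * ((Module.finrank F W : ℤ) - Module.finrank F U)

/-- the convex penalty -/
def DD (k M s x : ℤ) : ℤ := M * max x 0 + (s - M) * max (x - (k - 1)) 0

/-- the parallel surplus -/
noncomputable def aa (k M s : ℤ) (v : ι → V) (U : Submodule F V) (J : Finset ι)
    (W : Submodule F V) : ℤ :=
  M * (J.card - eps v J W) - (s - k * M) * ((Module.finrank F W : ℤ) - Module.finrank F U)

/-- the invariant -/
def IV (k M s : ℤ) (v : ι → V) (U : Submodule F V) (J : Finset ι) (b : ℤ) : Prop :=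
  ∀ U' W, U ≤ U' → U ≤ W → 1 + aa k M s v U J U' + DD k M s (ff k v U J W) ≤ b

end defs

/-! ### the penalty function -/

theorem DD_mono {k M s x y : ℤ} (hM : 0 ≤ M) (hs : M ≤ s) (h : x ≤ y) :
    DD k M s x ≤ DD k M s y := by
  unfold DD
  have h1 : max x 0 ≤ max y 0 := max_le_max h le_rfl
  have h2 : max (x - (k - 1)) 0 ≤ max (y - (k - 1)) 0 := max_le_max (by linarith) le_rfl
  have h3 : 0 ≤ s - M := by linarith
  have h4 := mul_le_mul_of_nonneg_left h1 hM
  have h5 := mul_le_mul_of_nonneg_left h2 h3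
  linarith

theorem DD_zero {k M s x : ℤ} (hk : 1 ≤ k) (h : x ≤ 0) : DD k M s x = 0 := by
  unfold DD
  rw [max_eq_right h, max_eq_right (by linarith)]
  ring

theorem DD_nonneg {k M s x : ℤ} (hM : 0 ≤ M) (hs : M ≤ s) : 0 ≤ DD k M s x := by
  unfold DD
  have h3 : 0 ≤ s - M := by linarith
  have h4 := mul_nonneg hM (le_max_right x 0)
  have h5 := mul_nonneg h3 (le_max_right (x - (k - 1)) 0)
  linarith

theorem DD_step {k M s x : ℤ} (hs : M ≤ s) (h : 1 ≤ x) :
    DD k M s (x - 1) + M ≤ DD k M s x := by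
  unfold DD
  have h3 : 0 ≤ s - M := by linarith
  have h1 : max x 0 = max (x - 1) 0 + 1 := by
    rw [max_eq_left (by linarith), max_eq_left (by linarith)]
    ring
  have h2 : max (x - 1 - (k - 1)) 0 ≤ max (x - (k - 1)) 0 := max_le_max (by linarith) le_rfl
  have h5 := mul_le_mul_of_nonneg_left h2 h3
  rw [h1]
  linarith

theorem DD_lip {k M s x y : ℤ} (hM : 0 ≤ M) (hs : M ≤ s) (hy : 0 ≤ y) :
    DD k M s (x + y) ≤ DD k M s x + s * y := by
  unfold DD
  have h3 : 0 ≤ s - M := by linarith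
  have h1 : max (x + y) 0 ≤ max x 0 + y := by
    apply max_le
    · linarith [le_max_left x 0]
    · linarith [le_max_right x 0]
  have h2 : max (x + y - (k - 1)) 0 ≤ max (x - (k - 1)) 0 + y := by
    apply max_le
    · linarith [le_max_left (x - (k - 1)) 0]
    · linarith [le_max_right (x - (k - 1)) 0]
  have h4 := mul_le_mul_of_nonneg_left h1 hM
  have h5 := mul_le_mul_of_nonneg_left h2 h3
  linarith

theorem DD_big {k M s x y : ℤ} (hk : 1 ≤ k) (hM : 0 ≤ M) (hs : M ≤ s) (hy : 0 ≤ y) (hxy : y ≤ x) :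
    DD k M s (x - y) + s * (y - (k - 1)) ≤ DD k M s x := by
  unfold DD
  have h3 : 0 ≤ s - M := by linarith
  have h1 : max x 0 = max (x - y) 0 + y := by
    rw [max_eq_left (by linarith), max_eq_left (by linarith)]
    ring
  have h2 : max (x - y - (k - 1)) 0 + (y - (k - 1)) ≤ max (x - (k - 1)) 0 := by
    rcases max_choice (x - y - (k - 1)) 0 with h | h
    · rw [h]
      linarith [le_max_left (x - (k - 1)) 0]
    · rw [h]
      linarith [le_max_left (x - (k - 1)) 0]
  have h5 := mul_le_mul_of_nonneg_left h2 h3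
  have h6 : 0 ≤ M * (k - 1) := mul_nonneg hM (by linarith)
  rw [h1]
  linarith

theorem DD_small {k M s x : ℤ} (hk : 1 ≤ k) (hM : 0 ≤ M) (hx : x ≤ k - 1) :
    DD k M s x ≤ M * (k - 1) := by
  unfold DD
  rw [max_eq_right (show x - (k - 1) ≤ 0 by linarith)]
  have h1 : max x 0 ≤ k - 1 := max_le hx (by linarith)
  have h4 := mul_le_mul_of_nonneg_left h1 hM
  linarith

section
variable {F V ι : Type} [Field F] [AddCommGroup V] [Module F V]

/-! ### counting lemmas -/

theorem eps_nonneg (v : ι → V) (J : Finset ι) (W : Submodule F V) : 0 ≤ eps v J W := by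
  unfold eps
  positivity

theorem eps_le_card (v : ι → V) (J : Finset ι) (W : Submodule F V) : eps v J W ≤ J.card := by
  unfold eps
  have h1 := Finset.card_image_le (s := J.filter fun i => v i ∉ W) (f := fun i => jn W (v i))
  have h2 := Finset.card_filter_le J (fun i => v i ∉ W)
  exact_mod_cast h1.trans h2

/-- removing labels lying in `W` does not change the number of classes -/
theorem eps_congr {v : ι → V} {J J' : Finset ι} {W : Submodule F V}
    (h : ∀ i, v i ∉ W → (i ∈ J ↔ i ∈ J')) : eps v J W = eps v J' W := by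
  unfold eps
  have : (J.filter fun i => v i ∉ W) = J'.filter fun i => v i ∉ W := by
    ext i
    rw [Finset.mem_filter, Finset.mem_filter]
    constructor
    · rintro ⟨h1, h2⟩
      exact ⟨(h i h2).1 h1, h2⟩
    · rintro ⟨h1, h2⟩
      exact ⟨(h i h2).2 h1, h2⟩
  rw [this]

theorem eps_erase_ge (v : ι → V) (J : Finset ι) (W : Submodule F V) (j : ι) :
    eps v J W - 1 ≤ eps v (J.erase j) W := by
  unfold eps
  have h1 : ((J.filter fun i => v i ∉ W).image fun i => jn W (v i)) ⊆
      insert (jn W (v j)) (((J.erase j).filter fun i => v i ∉ W).image fun i => jn W (v i)) := by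
    intro L hL
    obtain ⟨i, hi, rfl⟩ := Finset.mem_image.1 hL
    rw [Finset.mem_filter] at hi
    rw [Finset.mem_insert]
    by_cases hij : i = j
    · left
      rw [hij]
    · right
      exact Finset.mem_image.2 ⟨i, Finset.mem_filter.2 ⟨Finset.mem_erase.2 ⟨hij, hi.1⟩, hi.2⟩, rfl⟩
  have h2 := Finset.card_le_card h1
  have h3 := h2.trans (Finset.card_insert_le _ _)
  have h4 : (((J.filter fun i => v i ∉ W).image fun i => jn W (v i)).card : ℤ) ≤
      ((((J.erase j).filter fun i => v i ∉ W).image fun i => jn W (v i)).card : ℤ) + 1 := by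
    exact_mod_cast h3
  linarith

theorem eps_erase_eq {v : ι → V} {J : Finset ι} {U W : Submodule F V} {j j' : ι} (hUW : U ≤ W)
    (hj' : j' ∈ J) (hne : j' ≠ j) (h : jn U (v j') = jn U (v j)) :
    eps v (J.erase j) W = eps v J W := by
  unfold eps
  congr 2
  apply Finset.Subset.antisymm
  · intro L hL
    obtain ⟨i, hi, rfl⟩ := Finset.mem_image.1 hL
    rw [Finset.mem_filter, Finset.mem_erase] at hi
    exact Finset.mem_image.2 ⟨i, Finset.mem_filter.2 ⟨hi.1.2, hi.2⟩, rfl⟩
  · intro L hL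
    obtain ⟨i, hi, rfl⟩ := Finset.mem_image.1 hL
    rw [Finset.mem_filter] at hi
    by_cases hij : i = j
    · subst hij
      have h1 : jn W (v j') = jn W (v i) := jn_up hUW h
      refine Finset.mem_image.2 ⟨j', Finset.mem_filter.2 ⟨Finset.mem_erase.2 ⟨hne, hj'⟩, ?_⟩, h1⟩
      intro h2
      exact hi.2 ((mem_iff_of_jn_eq hUW h).1 h2)
    · exact Finset.mem_image.2 ⟨i, Finset.mem_filter.2 ⟨Finset.mem_erase.2 ⟨hij, hi.1⟩, hi.2⟩, rfl⟩

theorem nn_le_card (v : ι → V) (J : Finset ι) (W : Submodule F V) : nn v J W ≤ J.card := by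
  unfold nn
  exact_mod_cast Finset.card_filter_le J (fun i => v i ∈ W)

theorem nn_subset {v : ι → V} {J J' : Finset ι} (h : J ⊆ J') (W : Submodule F V) :
    nn v J W ≤ nn v J' W := by
  unfold nn
  exact_mod_cast Finset.card_le_card (Finset.filter_subset_filter _ h)

theorem nn_mono {v : ι → V} {J : Finset ι} {W W' : Submodule F V} (h : W ≤ W') :
    nn v J W ≤ nn v J W' := by
  unfold nn
  have : (J.filter fun i => v i ∈ W) ⊆ J.filter fun i => v i ∈ W' := by
    intro i hi
    rw [Finset.mem_filter] at hi ⊢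
    exact ⟨hi.1, h hi.2⟩
  exact_mod_cast Finset.card_le_card this

theorem nn_zero {v : ι → V} {J : Finset ι} {U : Submodule F V} (h : ∀ i ∈ J, v i ∉ U) :
    nn v J U = 0 := by
  unfold nn
  rw [Finset.filter_false_of_mem (fun i hi => h i hi)]
  simp

theorem nn_erase_mem {v : ι → V} {J : Finset ι} {W : Submodule F V} {j : ι} (hj : j ∈ J)
    (hW : v j ∈ W) : nn v (J.erase j) W = nn v J W - 1 := by
  unfold nn
  have h1 : ((J.erase j).filter fun i => v i ∈ W) = (J.filter fun i => v i ∈ W).erase j := by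
    ext i
    simp only [Finset.mem_filter, Finset.mem_erase]
    tauto
  have h2 : j ∈ J.filter fun i => v i ∈ W := Finset.mem_filter.2 ⟨hj, hW⟩
  rw [h1, Finset.card_erase_of_mem h2]
  have : 1 ≤ (J.filter fun i => v i ∈ W).card := Finset.card_pos.2 ⟨j, h2⟩
  omega

/-- labels in `W` split in those in `U₁` and the others -/
theorem nn_filter {v : ι → V} {J : Finset ι} {U₁ W : Submodule F V} (h : U₁ ≤ W) :
    nn v (J.filter fun i => v i ∉ U₁) W = nn v J W - nn v J U₁ := by
  unfold nn
  rw [eq_sub_iff_add_eq, ← Nat.cast_add, ← Finset.card_union_of_disjoint]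
  · congr 2
    ext i
    simp only [Finset.mem_filter, Finset.mem_union]
    constructor
    · rintro (⟨⟨h1, _⟩, h3⟩ | ⟨h1, h2⟩)
      · exact ⟨h1, h3⟩
      · exact ⟨h1, h h2⟩
    · rintro ⟨h1, h2⟩
      by_cases h3 : v i ∈ U₁
      · exact Or.inr ⟨h1, h3⟩
      · exact Or.inl ⟨⟨h1, h3⟩, h2⟩
  · rw [Finset.disjoint_left]
    intro i h1 h2
    simp only [Finset.mem_filter] at h1 h2
    exact h1.1.2 h2.2

theorem card_filter_notMem (v : ι → V) (J : Finset ι) (U₁ : Submodule F V) :
    ((J.filter fun i => v i ∉ U₁).card : ℤ) = J.card - nn v J U₁ := by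
  unfold nn
  have h := Finset.card_filter_add_card_filter_not (s := J) (fun i => v i ∈ U₁)
  have h' : ((J.filter fun i => v i ∈ U₁).card : ℤ) + ((J.filter fun i => v i ∉ U₁).card : ℤ) =
      J.card := by exact_mod_cast h
  linarith

theorem nn_super (v : ι → V) (J : Finset ι) (W W' : Submodule F V) :
    nn v J W + nn v J W' ≤ nn v J (W ⊓ W') + nn v J (W ⊔ W') := by
  unfold nn
  have h1 : (J.filter fun i => v i ∈ W ⊓ W') =
      (J.filter fun i => v i ∈ W) ∩ (J.filter fun i => v i ∈ W') := by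
    ext i
    simp only [Finset.mem_filter, Finset.mem_inter, Submodule.mem_inf]
    tauto
  have h2 : (J.filter fun i => v i ∈ W) ∪ (J.filter fun i => v i ∈ W') ⊆
      (J.filter fun i => v i ∈ W ⊔ W') := by
    intro i hi
    rw [Finset.mem_union, Finset.mem_filter, Finset.mem_filter] at hi
    rw [Finset.mem_filter]
    rcases hi with hi | hi
    · exact ⟨hi.1, (le_sup_left : W ≤ W ⊔ W') hi.2⟩
    · exact ⟨hi.1, (le_sup_right : W' ≤ W ⊔ W') hi.2⟩
  have h3 := Finset.card_le_card h2
  have h4 := Finset.card_union_add_card_inter (J.filter fun i => v i ∈ W) (J.filter fun i => v i ∈ W')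
  rw [h1]
  have h5 : (J.filter fun i => v i ∈ W).card + (J.filter fun i => v i ∈ W').card ≤
      ((J.filter fun i => v i ∈ W) ∩ (J.filter fun i => v i ∈ W')).card +
      (J.filter fun i => v i ∈ W ⊔ W').card := by omega
  exact_mod_cast h5

end

end Pool.Agent.W61.AJK
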