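import Pool.Agent.W61.AJK.Game

open scoped Classical

namespace Pool.Agent.W61.AJK

open Pool.H433AJT

section
variable {F V ι : Type} [Field F] [AddCommGroup V] [Module F V] [FiniteDimensional F V]

theorem frm {U W : Submodule F V} (h : U ≤ W) :
    (0 : ℤ) ≤ (Module.finrank F W : ℤ) - Module.finrank F U := by
  have := Submodule.finrank_mono h
  omega

theorem ff_le_card {k : ℤ} (hk : 1 ≤ k) (v : ι → V) {U W : Submodule F V} (J : Finset ι)
    (h : U ≤ W) : ff k v U J W ≤ J.card := by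
  unfold ff
  have h1 := nn_le_card v J W
  have h2 := frm h
  have h3 : 0 ≤ k * ((Module.finrank F W : ℤ) - Module.finrank F U) :=
    mul_nonneg (by linarith) h2
  linarith

theorem ff_self {k : ℤ} {v : ι → V} {U : Submodule F V} {J : Finset ι}
    (h : ∀ i ∈ J, v i ∉ U) : ff k v U J U = 0 := by
  unfold ff
  rw [nn_zero h]
  ring

theorem ff_super (k : ℤ) (v : ι → V) (U : Submodule F V) (J : Finset ι) (W W' : Submodule F V) :
    ff k v U J W + ff k v U J W' ≤ ff k v U J (W ⊓ W') + ff k v U J (W ⊔ W') := by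
  unfold ff
  have h1 := nn_super v J W W'
  have h2 := Submodule.finrank_sup_add_finrank_inf_eq W W'
  have h3 : (Module.finrank F (W ⊔ W' : Submodule F V) : ℤ) +
      Module.finrank F (W ⊓ W' : Submodule F V) = Module.finrank F W + Module.finrank F W' := by
    exact_mod_cast h2
  have h4 : k * ((Module.finrank F (W ⊔ W' : Submodule F V) : ℤ) +
      Module.finrank F (W ⊓ W' : Submodule F V)) =
      k * (Module.finrank F W + Module.finrank F W') := by rw [h3]
  linarith

/-- least maximiser of `ff` -/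
theorem ff_max {k : ℤ} (hk : 1 ≤ k) (v : ι → V) (U : Submodule F V) (J : Finset ι) :
    ∃ W₀, U ≤ W₀ ∧ (∀ W, U ≤ W → ff k v U J W ≤ ff k v U J W₀) ∧
      ∀ W, U ≤ W → ff k v U J W = ff k v U J W₀ → W₀ ≤ W := by
  obtain ⟨M, ⟨W₁, hW₁, hM⟩, hmax⟩ := Int.exists_greatest_of_bdd
    (P := fun z => ∃ W, U ≤ W ∧ ff k v U J W = z)
    ⟨J.card, by
      rintro z ⟨W, hW, rfl⟩
      exact ff_le_card hk v J hW⟩ ⟨_, U, le_rfl, rfl⟩
  have hex : ∃ n, ∃ W, U ≤ W ∧ ff k v U J W = M ∧ Module.finrank F W = n :=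
    ⟨_, W₁, hW₁, hM, rfl⟩
  obtain ⟨W₀, h1, h2, h3⟩ := Nat.find_spec hex
  refine ⟨W₀, h1, fun W hW => ?_, fun W hW he => ?_⟩
  · rw [h2]
    exact hmax _ ⟨W, hW, rfl⟩
  · rw [h2] at he
    have h4 := ff_super k v U J W₀ W
    have h5 : ff k v U J (W₀ ⊓ W) ≤ M := hmax _ ⟨_, le_inf h1 hW, rfl⟩
    have h6 : ff k v U J (W₀ ⊔ W) ≤ M := hmax _ ⟨_, h1.trans le_sup_left, rfl⟩
    have h7 : ff k v U J (W₀ ⊓ W) = M := by linarith
    have h8 := Nat.find_min' hex ⟨W₀ ⊓ W, le_inf h1 hW, h7, rfl⟩
    rw [← h3] at h8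
    have h9 : W₀ ⊓ W = W₀ := Submodule.eq_of_le_of_finrank_le inf_le_left h8
    rw [← h9]
    exact inf_le_right

theorem IV_mono {k M s : ℤ} {v : ι → V} {U : Submodule F V} {J : Finset ι} {b b' : ℤ}
    (h : IV k M s v U J b) (hb : b ≤ b') : IV k M s v U J b' :=
  fun U' W h1 h2 => (h U' W h1 h2).trans hb

/-- deletion never increases the two terms -/
theorem aa_erase_le {k M s : ℤ} (hM : 0 ≤ M) (v : ι → V) (U : Submodule F V) {J : Finset ι}
    {j : ι} (hj : j ∈ J) (W : Submodule F V) : aa k M s v U (J.erase j) W ≤ aa k M s v U J W := by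
  unfold aa
  have h1 := eps_erase_ge v J W j
  have h2 : ((J.erase j).card : ℤ) = J.card - 1 := by
    rw [Finset.card_erase_of_mem hj]
    have : 1 ≤ J.card := Finset.card_pos.2 ⟨j, hj⟩
    omega
  rw [h2]
  have h3 : M * ((J.card : ℤ) - 1 - eps v (J.erase j) W) ≤ M * (J.card - eps v J W) :=
    mul_le_mul_of_nonneg_left (by linarith) hM
  linarith

theorem ff_erase_le (k : ℤ) (v : ι → V) (U : Submodule F V) (J : Finset ι)
    (j : ι) (W : Submodule F V) : ff k v U (J.erase j) W ≤ ff k v U J W := by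
  unfold ff
  have h1 := nn_subset (v := v) (Finset.erase_subset j J) W
  linarith

theorem IV_erase {k M s : ℤ} (hM : 0 ≤ M) (hs : M ≤ s) {v : ι → V} {U : Submodule F V}
    {J : Finset ι} {b : ℤ} {j : ι} (hj : j ∈ J) (h : IV k M s v U J b) :
    IV k M s v U (J.erase j) b := by
  intro U' W h1 h2
  have h3 := h U' W h1 h2
  have h4 := aa_erase_le (k := k) (s := s) hM v U hj U'
  have h5 := DD_mono (k := k) hM hs (ff_erase_le k v U J j W)
  linarith

/-- deletion of a label with a parallel partner -/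
theorem IV_erase_par {k M s : ℤ} (hM : 0 ≤ M) (hs : M ≤ s) {v : ι → V} {U : Submodule F V}
    {J : Finset ι} {b : ℤ} {j j' : ι} (hj : j ∈ J) (hj' : j' ∈ J) (hne : j' ≠ j)
    (hp : jn U (v j') = jn U (v j)) (h : IV k M s v U J b) :
    IV k M s v U (J.erase j) (b - M) := by
  intro U' W h1 h2
  have h3 := h U' W h1 h2
  have h4 := eps_erase_eq h1 hj' hne hp
  have h6 : ((J.erase j).card : ℤ) = J.card - 1 := by
    rw [Finset.card_erase_of_mem hj]
    have : 1 ≤ J.card := Finset.card_pos.2 ⟨j, hj⟩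
    omega
  have h7 : aa k M s v U (J.erase j) U' = aa k M s v U J U' - M := by
    unfold aa
    rw [h4, h6]
    ring
  have h5 := DD_mono (k := k) hM hs (ff_erase_le k v U J j W)
  rw [h7]
  linarith

/-- deletion of a label in the least maximiser -/
theorem IV_erase_max {k M s : ℤ} (hM : 0 ≤ M) (hs : M ≤ s) {v : ι → V}
    {U W₀ : Submodule F V} {J : Finset ι} {b : ℤ} {j : ι} (hj : j ∈ J) (hU : U ≤ W₀)
    (hjW : v j ∈ W₀) (hmax : ∀ W, U ≤ W → ff k v U J W ≤ ff k v U J W₀)
    (hmin : ∀ W, U ≤ W → ff k v U J W = ff k v U J W₀ → W₀ ≤ W)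
    (hpos : 0 < ff k v U J W₀) (h : IV k M s v U J b) :
    IV k M s v U (J.erase j) (b - M) := by
  intro U' W h1 h2
  have h3 := h U' W₀ h1 hU
  have h4 := aa_erase_le (k := k) (s := s) hM v U hj U'
  have h5 : ff k v U (J.erase j) W ≤ ff k v U J W₀ - 1 := by
    rcases eq_or_lt_of_le (hmax W h2) with he | hlt
    · have h6 := hmin W h2 he
      have h7 := nn_erase_mem hj (h6 hjW)
      have h8 : ff k v U (J.erase j) W = ff k v U J W - 1 := by
        unfold ff
        rw [h7]
        ring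
      rw [h8, he]
    · have := ff_erase_le k v U J j W
      omega
  have h6 := DD_mono (k := k) hM hs h5
  have h7 := DD_step (k := k) hs (show 1 ≤ ff k v U J W₀ by omega)
  linarith

theorem nn_jn0 {v : ι → V} {U : Submodule F V} {J : Finset ι} (h : ∀ i ∈ J, v i ∉ U) (j : ι) :
    nn v J (jn U (v j)) = (cls v J U j).card := by
  rw [nn_jn, nn_zero h, zero_add]

theorem ff_con {k : ℤ} {v : ι → V} {U W : Submodule F V} {J : Finset ι} {j : ι}
    (h : ∀ i ∈ J, v i ∉ U) (hj : j ∈ J) (hW : jn U (v j) ≤ W) :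
    ff k v (jn U (v j)) (J.filter fun i => v i ∉ jn U (v j)) W =
      ff k v U J W + k - (cls v J U j).card := by
  unfold ff
  rw [nn_filter hW, nn_jn0 h, finrank_jn (h j hj)]
  push_cast
  ring

theorem aa_con {k M s : ℤ} {v : ι → V} {U W : Submodule F V} {J : Finset ι} {j : ι}
    (h : ∀ i ∈ J, v i ∉ U) (hj : j ∈ J) (hW : jn U (v j) ≤ W) :
    aa k M s v (jn U (v j)) (J.filter fun i => v i ∉ jn U (v j)) W =
      aa k M s v U J W - M * (cls v J U j).card + (s - k * M) := by
  unfold aa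
  have h1 : eps v (J.filter fun i => v i ∉ jn U (v j)) W = eps v J W := by
    apply eps_congr
    intro i hi
    rw [Finset.mem_filter]
    exact ⟨fun h => h.1, fun h => ⟨h, fun h2 => hi (hW h2)⟩⟩
  rw [card_filter_notMem, nn_jn0 h, finrank_jn (h j hj), h1]
  push_cast
  ring

/-- contraction after a deletion with budget drop -/
theorem IV_con1 {k M s σ : ℤ} (hk : 1 ≤ k) (hM : 1 ≤ M) (hs : M ≤ s) (hσ : s * (2 * k - 1) ≤ σ)
    {v : ι → V} {U : Submodule F V} {J : Finset ι} {b : ℤ} {j : ι}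
    (hU : ∀ i ∈ J, v i ∉ U) (hj : j ∈ J) (h : IV k M s v U J b) :
    IV k M s v (jn U (v j)) (J.filter fun i => v i ∉ jn U (v j))
      (b + σ - M - s * ((cls v J U j).card - 1)) := by
  intro U' W h1 h2
  have hUU := le_jn U (v j)
  rw [aa_con hU hj h1, ff_con hU hj h2]
  have hc : 1 ≤ ((cls v J U j).card : ℤ) := by
    have : 1 ≤ (cls v J U j).card := Finset.card_pos.2 ⟨j, self_mem_cls hj (hU j hj)⟩
    exact_mod_cast this
  set c : ℤ := ((cls v J U j).card : ℤ) with hcdef
  have hM0 : 0 ≤ M := by linarith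
  have hMc : 0 ≤ M * (c - 1) := mul_nonneg hM0 (by linarith)
  have hkM : 0 ≤ k * M := mul_nonneg (by linarith) hM0
  have hs1 : 1 ≤ s := by linarith
  rcases le_or_gt c k with hck | hck
  · have h3 := h U' W (hUU.trans h1) (hUU.trans h2)
    have h4 := DD_lip (k := k) (x := ff k v U J W) hM0 hs (show 0 ≤ k - c by linarith)
    rw [show ff k v U J W + k - c = ff k v U J W + (k - c) by ring]
    have h5 : s * k ≤ σ := by nlinarith
    nlinarith
  · -- big class
    have hW1 : ff k v U J (jn U (v j)) = c - k := by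
      unfold ff
      rw [nn_jn0 hU, finrank_jn (hU j hj)]
      push_cast
      ring
    have h3 := h U' W (hUU.trans h1) (hUU.trans h2)
    have h3' := h U' (jn U (v j)) (hUU.trans h1) hUU
    rw [hW1] at h3'
    have h4 : 1 + aa k M s v U J U' + DD k M s (max (ff k v U J W) (c - k)) ≤ b := by
      rcases max_choice (ff k v U J W) (c - k) with h5 | h5
      · rw [h5]; exact h3
      · rw [h5]; exact h3'
    have h5 := DD_big (M := M) (s := s) hk hM0 hs (show 0 ≤ c - k by linarith)
      (le_max_right (ff k v U J W) (c - k))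
    have h6 : DD k M s (ff k v U J W + k - c) ≤
        DD k M s (max (ff k v U J W) (c - k) - (c - k)) := by
      apply DD_mono hM0 hs
      linarith [le_max_left (ff k v U J W) (c - k)]
    nlinarith

/-- contraction in a simple state without excess -/
theorem IV_con2 {k M s : ℤ} (hk : 1 ≤ k) (hM : 1 ≤ M)
    {v : ι → V} {U : Submodule F V} {J : Finset ι} {b : ℤ} {j : ι}
    (hU : ∀ i ∈ J, v i ∉ U) (hj : j ∈ J) (hc : (cls v J U j).card = 1)
    (hf : ∀ W, U ≤ W → ff k v U J W ≤ 0) (h : IV k M s v U J b) :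
    IV k M s v (jn U (v j)) (J.filter fun i => v i ∉ jn U (v j)) (b + s - M) := by
  intro U' W h1 h2
  have hUU := le_jn U (v j)
  rw [aa_con hU hj h1, ff_con hU hj h2, hc]
  have hM0 : 0 ≤ M := by linarith
  have h3 := h U' U (hUU.trans h1) le_rfl
  rw [ff_self hU, DD_zero hk le_rfl] at h3
  have h4 := DD_small (s := s) hk hM0 (show ff k v U J W + k - ((1 : ℕ) : ℤ) ≤ k - 1 by
    push_cast
    linarith [hf W (hUU.trans h2)])
  push_cast at h4 ⊢
  nlinarith

/-- many loops -/
theorem bulk {s σ : ℤ} {v : ι → V} {m : ι → ℕ} {Z : Submodule F V → Finset ι → ℤ → Prop}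
    (hR : GR s σ v m Z) (U : Submodule F V) (I J : Finset ι) (b : ℤ) (hIJ : Disjoint I J)
    (hJ : ∀ i ∈ J, v i ∈ U ∧ 1 ≤ m i ∧ (m i : ℤ) ≤ s) (hZ : Z U I (b - s * J.card)) :
    Z U (I ∪ J) b := by
  induction J using Finset.induction_on generalizing b with
  | empty =>
    simpa using hZ
  | insert j J hj ih =>
    rw [Finset.union_insert]
    have hjI : j ∉ I := fun h => (Finset.disjoint_left.1 hIJ h) (Finset.mem_insert_self j J)
    have hj' := hJ j (Finset.mem_insert_self j J)
    refine hR.loop U (I ∪ J) b j ?_ hj'.1 hj'.2.1 hj'.2.2 ?_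
    · intro h
      rcases Finset.mem_union.1 h with h | h
      · exact hjI h
      · exact hj h
    · refine ih (b - s) (hIJ.mono_right (Finset.subset_insert j J))
        (fun i hi => hJ i (Finset.mem_insert_of_mem hi)) ?_
      rw [Finset.card_insert_of_notMem hj] at hZ
      have : b - s * ((J.card + 1 : ℕ) : ℤ) = b - s - s * (J.card : ℤ) := by
        push_cast
        ring
      rwa [this] at hZ

/-- loops created by a contraction -/
theorem bulk_con {s σ : ℤ} {v : ι → V} {m : ι → ℕ} {Z : Submodule F V → Finset ι → ℤ → Prop}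
    (hR : GR s σ v m Z) {U : Submodule F V} {J : Finset ι} {i : ι}
    (hJ : ∀ i ∈ J, v i ∉ U ∧ 1 ≤ m i ∧ (m i : ℤ) ≤ s) (hi : i ∈ J) {β : ℤ}
    (hβ : Z (jn U (v i)) (J.filter fun j => v j ∉ jn U (v i))
      (β - s * ((cls v J U i).card - 1))) : Z (jn U (v i)) (J.erase i) β := by
  have hiU : v i ∉ U := (hJ i hi).1
  have hiK : i ∈ cls v J U i := self_mem_cls hi hiU
  have hcard : (((cls v J U i).erase i).card : ℤ) = (cls v J U i).card - 1 := by
    rw [Finset.card_erase_of_mem hiK]
    have : 1 ≤ (cls v J U i).card := Finset.card_pos.2 ⟨i, hiK⟩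
    omega
  have hdec : J.erase i = (J.filter fun j => v j ∉ jn U (v i)) ∪ (cls v J U i).erase i := by
    ext j
    simp only [Finset.mem_erase, Finset.mem_union, Finset.mem_filter, mem_cls]
    constructor
    · rintro ⟨hji, hj⟩
      by_cases hm : v j ∈ jn U (v i)
      · right
        exact ⟨hji, hj, (hJ j hj).1, jn_eq_of_mem (hJ j hj).1 hm⟩
      · left
        exact ⟨hj, hm⟩
    · rintro (⟨hj, hm⟩ | ⟨hji, hj, -, -⟩)
      · refine ⟨?_, hj⟩
        rintro rfl
        exact hm (mem_jn_self U (v j))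
      · exact ⟨hji, hj⟩
  have hdisj : Disjoint (J.filter fun j => v j ∉ jn U (v i)) ((cls v J U i).erase i) := by
    rw [Finset.disjoint_left]
    intro j hj hj'
    simp only [Finset.mem_filter] at hj
    simp only [Finset.mem_erase, mem_cls] at hj'
    apply hj.2
    rw [← hj'.2.2.2]
    exact mem_jn_self U (v j)
  rw [hdec]
  refine bulk hR _ _ _ β hdisj (fun j hj => ?_) ?_
  · simp only [Finset.mem_erase, mem_cls] at hj
    refine ⟨?_, (hJ j hj.2.1).2⟩
    rw [← hj.2.2.2]
    exact mem_jn_self U (v j)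
  · rw [hcard]
    exact hβ

/-- the game theorem -/
theorem game {k M s σ : ℤ} (hk : 1 ≤ k) (hM : 1 ≤ M) (hs : M ≤ s) (hσ : s * (2 * k - 1) ≤ σ)
    {v : ι → V} {m : ι → ℕ} {Z : Submodule F V → Finset ι → ℤ → Prop} (hR : GR s σ v m Z) :
    ∀ (n : ℕ) (U : Submodule F V) (J : Finset ι) (b : ℤ), J.card = n →
      (∀ i ∈ J, v i ∉ U ∧ 1 ≤ m i ∧ (m i : ℤ) ≤ M) → IV k M s v U J b → Z U J b := by
  intro n
  induction n using Nat.strong_induction_on with
  | _ n ih =>
    intro U J b hn hJ hI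
    have hM0 : 0 ≤ M := by linarith
    have hU : ∀ i ∈ J, v i ∉ U := fun i hi => (hJ i hi).1
    have hJs : ∀ i ∈ J, v i ∉ U ∧ 1 ≤ m i ∧ (m i : ℤ) ≤ s := fun i hi =>
      ⟨(hJ i hi).1, (hJ i hi).2.1, (hJ i hi).2.2.trans hs⟩
    -- contraction
    have hcon : ∀ j ∈ J, ∀ b', IV k M s v (jn U (v j)) (J.filter fun i => v i ∉ jn U (v j)) b' →
        Z (jn U (v j)) (J.filter fun i => v i ∉ jn U (v j)) b' := by
      intro j hj b' h
      refine ih _ ?_ _ _ b' rfl (fun i hi => ?_) h
      · rw [← hn]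
        apply Finset.card_lt_card
        rw [Finset.filter_ssubset]
        exact ⟨j, hj, fun h => h (mem_jn_self U (v j))⟩
      · rw [Finset.mem_filter] at hi
        exact ⟨hi.2, (hJ i hi.1).2⟩
    have hdel : ∀ j ∈ J, ∀ b', IV k M s v U (J.erase j) b' → Z U (J.erase j) b' := by
      intro j hj b' h
      refine ih _ ?_ _ _ b' rfl (fun i hi => ?_) h
      · rw [← hn]
        exact Finset.card_erase_lt_of_mem hj
      · exact hJ i (Finset.mem_of_mem_erase hi)
    -- first rule
    have hR1 : ∀ j ∈ J, IV k M s v U (J.erase j) (b - M) → Z U J b := by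
      intro j hj h
      have h1 := hR.R1 U (J.erase j) b j (Finset.notMem_erase j J) (hU j hj) (hJs j hj).2.2
        (hdel j hj _ (IV_mono h (by linarith [(hJ j hj).2.2]))) (bulk_con hR hJs hj ?_)
      · rwa [Finset.insert_erase hj] at h1
      · refine hcon j hj _ (IV_mono (IV_con1 hk hM hs hσ hU hj hI) ?_)
        linarith [(hJ j hj).2.2]
    rcases Finset.eq_empty_or_nonempty J with rfl | ⟨j0, hj0⟩
    · apply hR.empty
      have h1 := hI U U le_rfl le_rfl
      rw [ff_self hU, DD_zero hk le_rfl] at h1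
      have h2 : aa k M s v U ∅ U = 0 := by
        unfold aa eps
        simp
      linarith
    · by_cases hpar : ∃ j ∈ J, ∃ j' ∈ J, j' ≠ j ∧ jn U (v j') = jn U (v j)
      · obtain ⟨j, hj, j', hj', hne, hp⟩ := hpar
        exact hR1 j hj (IV_erase_par hM0 hs hj hj' hne hp hI)
      · have hsimple : ∀ j ∈ J, (cls v J U j).card = 1 := by
          intro j hj
          rw [Finset.card_eq_one]
          refine ⟨j, ?_⟩
          ext i
          rw [mem_cls, Finset.mem_singleton]
          constructor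
          · rintro ⟨h1, _, h3⟩
            by_contra hij
            exact hpar ⟨j, hj, i, h1, hij, h3⟩
          · rintro rfl
            exact ⟨hj, hU i hj, rfl⟩
        obtain ⟨W₀, hW₀, hmax, hmin⟩ := ff_max hk v U J
        by_cases hpos : 0 < ff k v U J W₀
        · have hnn : 0 < nn v J W₀ := by
            unfold ff at hpos
            have h3 : 0 ≤ k * ((Module.finrank F W₀ : ℤ) - Module.finrank F U) :=
              mul_nonneg (by linarith) (frm hW₀)
            linarith
          unfold nn at hnn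
          obtain ⟨j, hj⟩ := Finset.card_pos.1 (show 0 < (J.filter fun i => v i ∈ W₀).card by
            exact_mod_cast hnn)
          rw [Finset.mem_filter] at hj
          exact hR1 j hj.1 (IV_erase_max hM0 hs hj.1 hW₀ hj.2 hmax hmin hpos hI)
        · have hf : ∀ W, U ≤ W → ff k v U J W ≤ 0 := fun W hW => (hmax W hW).trans (by linarith)
          have h1 := hR.R2 U (J.erase j0) b j0 (Finset.notMem_erase j0 J) (hU j0 hj0)
            (hJs j0 hj0).2.2 (hdel j0 hj0 _ (IV_erase hM0 hs hj0 hI)) (bulk_con hR hJs hj0 ?_)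
          · rwa [Finset.insert_erase hj0] at h1
          · refine hcon j0 hj0 _ (IV_mono (IV_con2 hk hM hU hj0 (hsimple j0 hj0) hf hI) ?_)
            rw [hsimple j0 hj0]
            push_cast
            linarith [(hJ j0 hj0).2.2]

end

end Pool.Agent.W61.AJK
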