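import Pool.Agent.H433R2.AJT.SpecC

open MvPolynomial
open scoped Classical

namespace Pool.Agent.W61.AJK

open Pool.H433AJT

/-- generalisation of `ST1`: raising the exponent by one with the vanishing of the kernel complex
in the degree before. -/
theorem SU1 {p N : ℕ} [hp : Fact p.Prime] (B : BC p N) (v : Vec p N) (hF : B.Free v) (m : ℕ)
    (hm : m + 1 ≤ p) (j : ℕ) (δ : ℤ) (hV : B.VanIm v m j δ)
    (hK : ∀ j', j = j' + 1 → B.VanKer v j' (δ - m + (p - 1))) : B.VanIm v (m + 1) j δ := by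
  intro c hc hd
  have hp1 : 1 < p := hp.out.one_lt
  have hxc : lin v • c ∈ B.G j (δ - m) := by
    have := B.lG v j _ c hc
    rwa [show δ - ((m + 1 : ℕ) : ℤ) + 1 = δ - m by push_cast; ring] at this
  have hx1 : lin v ^ m • (lin v • c) = lin v ^ (m + 1) • c := by
    rw [← mul_smul, ← pow_succ]
  have h0 := hV _ hxc (by rw [hx1]; exact hd)
  rw [hx1] at h0
  split_ifs at h0 ⊢ with hj
  · exact h0
  · obtain ⟨b, hb, hb'⟩ := h0
    obtain ⟨i, rfl⟩ := Nat.exists_eq_succ_of_ne_zero hj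
    have hb : b ∈ B.G i (δ - m) := hb
    show ∃ b ∈ B.G i (δ - ((m + 1 : ℕ) : ℤ)), B.d (lin v ^ (m + 1) • b) = lin v ^ (m + 1) • c
    have he : lin v ^ (p - 1) • b ∈ B.G i (δ - m + (p - 1)) := by
      have := lin_pow_smul_G B v (p - 1) i _ b hb
      rwa [Nat.cast_sub hp1.le, Nat.cast_one] at this
    have hxe : lin v • (lin v ^ (p - 1) • b) = 0 := by
      rw [← mul_smul, ← pow_succ', Nat.sub_add_cancel hp1.le, lin_pow, zero_smul]
    have hde : B.d (lin v ^ (p - 1) • b) = 0 := by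
      have h1 : lin v ^ (p - 1) • b = lin v ^ (p - 1 - m) • (lin v ^ m • b) := by
        rw [← mul_smul, ← pow_add]
        congr 2
        omega
      rw [h1, map_smul, hb', ← mul_smul, ← pow_add, show p - 1 - m + (m + 1) = p by omega, lin_pow,
        zero_smul]
    have h3 : ∃ b2 : B.C, B.d b2 ∈ B.G i (δ - m) ∧ lin v ^ (p - 1) • (b - B.d b2) = 0 := by
      have h4 := hK i rfl _ he hxe hde
      split_ifs at h4 with hi
      · exact ⟨0, by rw [map_zero]; exact zero_mem _, by rw [map_zero, sub_zero, h4]⟩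
      · obtain ⟨b', hb1, hb2, hb3⟩ := h4
        obtain ⟨b2, hb4, hb5⟩ := hF 1 hp1.le (i - 1) _ b' hb1 (by rw [pow_one]; exact hb2)
        refine ⟨b2, ?_, ?_⟩
        · have := B.dG _ _ _ hb4
          rw [show i - 1 + 1 = i by omega, Nat.cast_one, add_sub_cancel_right] at this
          exact this
        · rw [smul_sub, ← map_smul, ← hb5, hb3, sub_self]
    obtain ⟨b2, hb2, hb3⟩ := h3
    obtain ⟨b3, hb4, hb5⟩ := hF (p - 1) (by omega) i (δ - m) (b - B.d b2) (sub_mem hb hb2) hb3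
    refine ⟨b3, ?_, ?_⟩
    · rw [Nat.cast_sub hp1.le] at hb4
      rwa [show δ - ((m + 1 : ℕ) : ℤ) = δ - m - ((p : ℤ) - ((p : ℤ) - ((1 : ℕ) : ℤ))) by
        push_cast; ring]
    · rw [show p - (p - 1) = 1 by omega, pow_one] at hb5
      have e1 : lin v ^ (m + 1) • b3 = lin v ^ m • (b - B.d b2) := by
        rw [hb5, ← mul_smul, ← pow_succ]
      rw [e1, map_smul, map_sub, B.dd, sub_zero, ← map_smul, hb']

/-- `VU1` -/
theorem t_VU1 (h1 : S_RED) (h3 : S_LIFT) (h4 : S_KER) (h5 : S_KERV)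
    (p N : ℕ) [hp : Fact p.Prime] (U : Submodule (ZMod p) (Vec p N)) (v : Vec p N) (m : ℕ)
    (l : List (Vec p N × ℕ)) (j : ℕ) (δ : ℤ) (hv : v ∉ U) (hm : m + 1 ≤ p)
    (hV : (cplx U ((v, m) :: l)).Van j δ)
    (hK : ∀ j', j = j' + 1 → (cplx (U ⊔ Submodule.span (ZMod p) {v}) l).Van j' (δ - m + (p - 1))) :
    (cplx U ((v, m + 1) :: l)).Van j δ := by
  have hfree := h3 p N U v hv l
  refine (h1 p N (cplx U l) v (m + 1) hm hfree j δ).mp ?_
  refine SU1 (cplx U l) v hfree m hm j δ ?_ ?_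
  · exact (h1 p N (cplx U l) v m (by omega) hfree j δ).mpr hV
  · intro j' hj'
    exact (h5 p N _ _ v (h4 p N U v l) j' _).mpr (hK j' hj')

end Pool.Agent.W61.AJK
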