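import Pool.Agent.H433R2.AJT.Asm
import Pool.Agent.W61.AJK.VU1

open MvPolynomial
open scoped Classical

namespace Pool.Agent.W61.AJK

open Pool.H433AJT

/-- vanishing predicate of a state `(U, l)` with budget `b`, slope `p - s` -/
def ZZs {p N : ℕ} [Fact p.Prime] (s : ℤ) (U : Submodule (ZMod p) (Vec p N))
    (l : List (Vec p N × ℕ)) (b : ℤ) : Prop :=
  ∀ (j : ℕ) (δ : ℤ), δ ≤ ((p : ℤ) - 1) * Module.finrank (ZMod p) U +
      ((l.map fun a => (a.2 : ℤ)).sum) - b - ((p : ℤ) - s) * j → (cplx U l).Van j δ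

section
variable {p N : ℕ} [hp : Fact p.Prime]

theorem ZZs_mono {s : ℤ} {U : Submodule (ZMod p) (Vec p N)} {l : List (Vec p N × ℕ)} {b b' : ℤ}
    (h : b ≤ b') (hz : ZZs s U l b) : ZZs s U l b' := by
  intro j δ hδ
  exact hz j δ (by linarith)

theorem ZZs_perm {s : ℤ} {U : Submodule (ZMod p) (Vec p N)} {l l' : List (Vec p N × ℕ)} {b : ℤ}
    (hl : l.Perm l') (hz : ZZs s U l b) : ZZs s U l' b := by
  intro j δ hδ
  refine f_PERM p N U l l' hl j δ (hz j δ ?_)
  rw [(hl.map (fun a : Vec p N × ℕ => (a.2 : ℤ))).sum_eq]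
  exact hδ

theorem ZZs_nil {s : ℤ} {U : Submodule (ZMod p) (Vec p N)} {b : ℤ} (hb : 1 ≤ b) :
    ZZs s U [] b := by
  intro j δ hδ
  apply f_EMP
  by_cases hj : 1 ≤ j
  · exact Or.inl hj
  · right
    have hj0 : j = 0 := by omega
    subst hj0
    simp only [List.map_nil, List.sum_nil, Nat.cast_zero, mul_zero] at hδ
    linarith

/-- exponent zero -/
theorem van_zero {U : Submodule (ZMod p) (Vec p N)} {v : Vec p N} {l : List (Vec p N × ℕ)}
    {j : ℕ} {δ : ℤ} (hv : v ∉ U) (h : (cplx U l).Van j δ) : (cplx U ((v, 0) :: l)).Van j δ := by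
  have hfree := f_LIFT p N U v hv l
  refine (f_RED p N (cplx U l) v 0 (Nat.zero_le _) hfree j δ).mp ?_
  intro c hc hd
  have hc' : c ∈ (cplx U l).G j δ := by simpa using hc
  have hd' : (cplx U l).d c = 0 := by simpa using hd
  have h6 := h c hc' hd'
  split_ifs at h6 ⊢ with hj
  · simpa using h6
  · obtain ⟨b, hb, hb2⟩ := h6
    exact ⟨b, by simpa using hb, by simpa using hb2⟩

/-- first macro rule -/
theorem ZZs_R1 {s : ℤ} {U : Submodule (ZMod p) (Vec p N)} {v : Vec p N} {m : ℕ}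
    {l : List (Vec p N × ℕ)} {b : ℤ} (hv : v ∉ U) (hm : m ≤ p)
    (h1 : ZZs s U l (b - m))
    (h2 : ZZs s (U ⊔ Submodule.span (ZMod p) {v}) l (b + ((p : ℤ) - s) - m)) :
    ZZs s U ((v, m) :: l) b := by
  intro j δ hδ
  simp only [List.map_cons, List.sum_cons] at hδ
  have key : ∀ t : ℕ, t ≤ m → (cplx U ((v, t) :: l)).Van j δ := by
    intro t
    induction t with
    | zero =>
      intro _
      exact van_zero hv (h1 j δ (by linarith))
    | succ t ih =>
      intro ht
      refine t_VU1 f_RED f_LIFT f_KER f_KERV p N U v t l j δ hv (by omega) (ih (by omega)) ?_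
      rintro j' rfl
      refine h2 j' _ ?_
      rw [ZRULES_fr U v hv]
      push_cast at hδ ⊢
      have : (0 : ℤ) ≤ t := Int.natCast_nonneg t
      nlinarith
  exact key m le_rfl

/-- second macro rule -/
theorem ZZs_R2 {s : ℤ} {U : Submodule (ZMod p) (Vec p N)} {v : Vec p N} {m : ℕ}
    {l : List (Vec p N × ℕ)} {b : ℤ} (hv : v ∉ U) (hm : m ≤ p)
    (h1 : ZZs s U l b)
    (h2 : ZZs s (U ⊔ Submodule.span (ZMod p) {v}) l (b + s - m)) :
    ZZs s U ((v, m) :: l) b := by
  intro j δ hδ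
  simp only [List.map_cons, List.sum_cons] at hδ
  have key : ∀ t : ℕ, t ≤ m → (cplx U ((v, t) :: l)).Van j (δ - m + t) := by
    intro t
    induction t with
    | zero =>
      intro _
      refine van_zero hv (h1 j _ ?_)
      push_cast
      linarith
    | succ t ih =>
      intro ht
      refine f_VU2 p N U v t l j _ hv (by omega) ?_ ?_
      · have := ih (by omega)
        rwa [show δ - m + ((t + 1 : ℕ) : ℤ) - 1 = δ - m + t by push_cast; ring]
      · refine h2 (j + 1) _ ?_
        rw [ZRULES_fr U v hv]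
        push_cast at hδ ⊢
        have : ((t : ℤ) + 1) ≤ m := by exact_mod_cast ht
        nlinarith
  have := key m le_rfl
  rwa [sub_add_cancel] at this

/-- loops -/
theorem ZZs_loop {s : ℤ} (hs : 2 * s ≤ p) {U : Submodule (ZMod p) (Vec p N)} {v : Vec p N} {m : ℕ}
    {l : List (Vec p N × ℕ)} {b : ℤ} (hv : v ∈ U) (hm : 1 ≤ m) (hms : (m : ℤ) ≤ s)
    (h1 : ZZs s U l (b - s)) : ZZs s U ((v, m) :: l) b := by
  intro j δ hδ
  simp only [List.map_cons, List.sum_cons] at hδ
  have hmp : m < p := by omega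
  refine f_VLP p N U v m l j δ hv hm hmp ?_
  intro a ha
  refine h1 (j - a) _ ?_
  obtain ⟨k, rfl⟩ := Nat.exists_eq_add_of_le ha
  have e1 : a + k - a = k := by omega
  rw [e1]
  have e2 : ((sh p m a : ℕ) : ℤ) + m ≤ s + ((p : ℤ) - s) * a := by
    unfold sh
    have e3 : m + (p - m) = p := by omega
    rw [e3]
    rcases Nat.even_or_odd' a with ⟨c, rfl | rfl⟩
    · have g2 : (2 * c) % 2 = 0 := by omega
      have g4 : (2 * c) / 2 = c := by omega
      simp only [g2, g4]
      norm_num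
      have : (0:ℤ) ≤ c := Int.natCast_nonneg c
      nlinarith
    · have g2 : (2 * c + 1) % 2 = 1 := by omega
      have g4 : (2 * c + 1) / 2 = c := by omega
      simp only [g2, g4]
      norm_num
      rw [Nat.cast_sub hmp.le]
      have : (0:ℤ) ≤ c := Int.natCast_nonneg c
      nlinarith
  push_cast at hδ
  nlinarith

/-- finset version of the predicate -/
def ZF {ι : Type} (s : ℤ) (v : ι → Vec p N) (m : ι → ℕ) (U : Submodule (ZMod p) (Vec p N))
    (I : Finset ι) (b : ℤ) : Prop :=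
  ZZs s U (I.toList.map fun i => (v i, m i)) b

theorem ZF_insert {ι : Type} {s : ℤ} {v : ι → Vec p N} {m : ι → ℕ}
    {U : Submodule (ZMod p) (Vec p N)} {I : Finset ι} {b : ℤ} {i : ι} (hi : i ∉ I)
    (hz : ZZs s U ((v i, m i) :: I.toList.map fun j => (v j, m j)) b) :
    ZF s v m U (insert i I) b := by
  refine ZZs_perm ?_ hz
  have := (Finset.toList_insert hi).symm.map (fun j => (v j, m j))
  simpa using this

end

end Pool.Agent.W61.AJK
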