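import Pool.Agent.W61.AJK.Game2
import Pool.Agent.W61.AJK.Rules

open MvPolynomial
open scoped Classical

namespace Pool.Agent.W61.AJK

open Pool.H433AJT

section
variable {F V ι : Type} [Field F] [AddCommGroup V] [Module F V]

/-- number of classes modulo `U` inside `W` -/
noncomputable def dd (v : ι → V) (U : Submodule F V) (I : Finset ι) (W : Submodule F V) : ℤ :=
  (((I.filter fun i => v i ∈ W).image fun i => jn U (v i)).card : ℤ)

/-- the class of systems for which the product of the linear forms does not vanish -/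
def CC (k : ℤ) (v : ι → V) (U : Submodule F V) (I : Finset ι) : Prop :=
  (∀ i ∈ I, v i ∉ U) ∧ ∀ W, U ≤ W →
    dd v U I W + nn v I W ≤ 2 * k * ((Module.finrank F W : ℤ) - Module.finrank F U)

/-- the potential -/
noncomputable def phi (k : ℤ) (v : ι → V) (U : Submodule F V) (I : Finset ι)
    (W : Submodule F V) : ℤ :=
  2 * k * ((Module.finrank F W : ℤ) - Module.finrank F U) - nn v I W + eps v I W - eps v I U

theorem dd_le_nn (v : ι → V) (U : Submodule F V) (I : Finset ι) (W : Submodule F V) :
    dd v U I W ≤ nn v I W := by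
  unfold dd nn
  exact_mod_cast Finset.card_image_le

theorem dd_subset {v : ι → V} {U : Submodule F V} {I J : Finset ι} (h : J ⊆ I)
    (W : Submodule F V) : dd v U J W ≤ dd v U I W := by
  unfold dd
  exact_mod_cast Finset.card_le_card (Finset.image_subset_image (Finset.filter_subset_filter _ h))

theorem CC_sub {k : ℤ} {v : ι → V} {U : Submodule F V} {I J : Finset ι} (h : CC k v U I)
    (hJ : J ⊆ I) : CC k v U J :=
  ⟨fun i hi => h.1 i (hJ hi), fun W hW =>
    (add_le_add (dd_subset hJ W) (nn_subset hJ W)).trans (h.2 W hW)⟩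

theorem phi_self {k : ℤ} {v : ι → V} {U : Submodule F V} {I : Finset ι}
    (h : ∀ i ∈ I, v i ∉ U) : phi k v U I U = 0 := by
  unfold phi
  rw [nn_zero h]
  ring

theorem jn_sup {W W' : Submodule F V} (h : W ≤ W') (x : V) : jn W' x = W' ⊔ jn W x := by
  rw [jn, jn, ← sup_assoc, sup_eq_left.2 h]

theorem dd_split {v : ι → V} {I : Finset ι} {W W' : Submodule F V} (h : W ≤ W') :
    dd v W (I.filter fun i => v i ∉ W) W' + eps v I W' ≤ eps v I W := by
  set A : Finset (Submodule F V) := (I.filter fun i => v i ∉ W).image fun i => jn W (v i) with hA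
  set B : Finset (Submodule F V) :=
    ((I.filter fun i => v i ∉ W).filter fun i => v i ∈ W').image fun i => jn W (v i) with hB
  have hBA : B ⊆ A := Finset.image_subset_image (Finset.filter_subset _ _)
  have h1 : ((I.filter fun i => v i ∉ W').image fun i => jn W' (v i)) ⊆
      (A \ B).image fun L => W' ⊔ L := by
    intro L hL
    obtain ⟨i, hi, rfl⟩ := Finset.mem_image.1 hL
    rw [Finset.mem_filter] at hi
    refine Finset.mem_image.2 ⟨jn W (v i), ?_, (jn_sup h (v i)).symm⟩
    rw [Finset.mem_sdiff]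
    constructor
    · exact Finset.mem_image.2 ⟨i, Finset.mem_filter.2 ⟨hi.1, fun h2 => hi.2 (h h2)⟩, rfl⟩
    · intro h2
      obtain ⟨j, hj, hj2⟩ := Finset.mem_image.1 h2
      rw [Finset.mem_filter] at hj
      exact hi.2 ((mem_iff_of_jn_eq h hj2).1 hj.2)
  have h2 := (Finset.card_le_card h1).trans Finset.card_image_le
  have h3 := Finset.card_sdiff_add_card_eq_card hBA
  have h4 : B.card + ((I.filter fun i => v i ∉ W').image fun i => jn W' (v i)).card ≤ A.card := by
    omega
  unfold dd eps
  exact_mod_cast h4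

theorem CC_split {k : ℤ} {v : ι → V} {U W : Submodule F V} {I : Finset ι} (hUW : U ≤ W)
    (hmin : ∀ W', U ≤ W' → phi k v U I W ≤ phi k v U I W') :
    CC k v W (I.filter fun i => v i ∉ W) := by
  refine ⟨fun i hi => (Finset.mem_filter.1 hi).2, fun W' hW' => ?_⟩
  have h1 := hmin W' (hUW.trans hW')
  have h2 := dd_split (v := v) (I := I) hW'
  rw [nn_filter hW']
  unfold phi at h1
  linarith

theorem phi_all {k : ℤ} {v : ι → V} {U W : Submodule F V} {I : Finset ι} (hUW : U ≤ W)
    (hC : CC k v U I) (hall : ∀ i ∈ I, v i ∈ W) : 0 ≤ phi k v U I W := by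
  have h1 := hC.2 W hUW
  have h2 : eps v I U = dd v U I W := by
    unfold eps dd
    rw [Finset.filter_true_of_mem hC.1, Finset.filter_true_of_mem hall]
  have h3 := eps_nonneg v I W
  unfold phi
  rw [h2]
  linarith

variable [FiniteDimensional F V]

theorem phi_min {k : ℤ} (hk : 1 ≤ k) (v : ι → V) (U : Submodule F V) (I : Finset ι) :
    ∃ W, U ≤ W ∧ ∀ W', U ≤ W' → phi k v U I W ≤ phi k v U I W' := by
  obtain ⟨M, ⟨W₁, hW₁, hM⟩, hmin⟩ := Int.exists_least_of_bdd
    (P := fun z => ∃ W, U ≤ W ∧ phi k v U I W = z)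
    ⟨-(2 * I.card), by
      rintro z ⟨W, hW, rfl⟩
      unfold phi
      have h1 := nn_le_card v I W
      have h2 := eps_nonneg v I W
      have h3 := eps_le_card v I U
      have h4 : 0 ≤ 2 * k * ((Module.finrank F W : ℤ) - Module.finrank F U) :=
        mul_nonneg (by linarith) (frm hW)
      linarith⟩ ⟨_, U, le_rfl, rfl⟩
  exact ⟨W₁, hW₁, fun W' hW' => by rw [hM]; exact hmin _ ⟨W', hW', rfl⟩⟩

theorem CC_cls {k : ℤ} {v : ι → V} {U : Submodule F V} {I : Finset ι} (hC : CC k v U I)
    {i : ι} (hi : i ∈ I) : ((cls v I U i).card : ℤ) ≤ 2 * k - 1 := by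
  have h1 := hC.2 (jn U (v i)) (le_jn U _)
  rw [nn_jn0 hC.1, finrank_jn (hC.1 i hi)] at h1
  have h2 : 1 ≤ dd v U I (jn U (v i)) := by
    unfold dd
    have : 0 < ((I.filter fun j => v j ∈ jn U (v i)).image fun j => jn U (v j)).card :=
      Finset.card_pos.2 ⟨jn U (v i), Finset.mem_image.2 ⟨i, Finset.mem_filter.2
        ⟨hi, mem_jn_self U _⟩, rfl⟩⟩
    exact_mod_cast this
  push_cast at h1
  linarith

/-- the state after the contraction of the first class satisfies the invariant -/
theorem IV_start {k M s : ℤ} (hk : 1 ≤ k) (hM : 1 ≤ M) (hs : s = 3 * k * M)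
    {v : ι → V} {U : Submodule F V} {I R : Finset ι} {i0 : ι} {b : ℤ} (hC : CC k v U I)
    (hphi : ∀ W, U ≤ W → 0 ≤ phi k v U I W) (hi0 : i0 ∈ I) (hRI : R ⊆ I)
    (hR0 : ∀ r ∈ R, jn U (v r) ≠ jn U (v i0))
    (hR : ∀ i ∈ I, jn U (v i) ≠ jn U (v i0) → ∃! r, r ∈ R ∧ jn U (v r) = jn U (v i))
    (hb : 1 + M * (2 * k - 2) + M * (k - 1) ≤ b) :
    IV k M s v (jn U (v i0)) R b := by
  intro U' W h1 h2
  have hUU := le_jn U (v i0)
  have hfr := finrank_jn (hC.1 i0 hi0)
  have hM0 : 0 ≤ M := by linarith
  have hinj : Set.InjOn (fun i => jn U (v i)) (R : Set ι) := by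
    intro a ha b hb hab
    have ha' : a ∈ R := ha
    have hb' : b ∈ R := hb
    exact (hR a (hRI ha') (hR0 a ha')).unique ⟨ha', rfl⟩ ⟨hb', hab.symm⟩
  -- number of representatives
  have hA : (R.card : ℤ) + 1 ≤ eps v I U := by
    have h3 : insert (jn U (v i0)) (R.image fun i => jn U (v i)) ⊆
        (I.filter fun i => v i ∉ U).image fun i => jn U (v i) := by
      intro L hL
      rw [Finset.mem_insert] at hL
      rcases hL with rfl | hL
      · exact Finset.mem_image.2 ⟨i0, Finset.mem_filter.2 ⟨hi0, hC.1 i0 hi0⟩, rfl⟩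
      · obtain ⟨r, hr, rfl⟩ := Finset.mem_image.1 hL
        exact Finset.mem_image.2 ⟨r, Finset.mem_filter.2 ⟨hRI hr, hC.1 r (hRI hr)⟩, rfl⟩
    have h4 := Finset.card_le_card h3
    rw [Finset.card_insert_of_notMem, Finset.card_image_of_injOn hinj] at h4
    · unfold eps
      exact_mod_cast h4
    · intro hL
      obtain ⟨r, hr, hr2⟩ := Finset.mem_image.1 hL
      exact hR0 r hr hr2
  have hB : eps v I U' ≤ eps v R U' := by
    unfold eps
    have h3 : ((I.filter fun i => v i ∉ U').image fun i => jn U' (v i)) ⊆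
        (R.filter fun i => v i ∉ U').image fun i => jn U' (v i) := by
      intro L hL
      obtain ⟨i, hi, rfl⟩ := Finset.mem_image.1 hL
      rw [Finset.mem_filter] at hi
      have hne : jn U (v i) ≠ jn U (v i0) := by
        intro h
        apply hi.2
        apply h1
        rw [← h]
        exact mem_jn_self U _
      obtain ⟨r, ⟨hr, hr2⟩, _⟩ := hR i hi.1 hne
      have hUU' : U ≤ U' := hUU.trans h1
      refine Finset.mem_image.2 ⟨r, Finset.mem_filter.2 ⟨hr, fun h => hi.2 ?_⟩, jn_up hUU' hr2⟩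
      exact (mem_iff_of_jn_eq hUU' hr2).1 h
    exact_mod_cast Finset.card_le_card h3
  have hCc := hphi U' (hUU.trans h1)
  have hN1 : 1 ≤ nn v I U' := by
    unfold nn
    have : 0 < (I.filter fun i => v i ∈ U').card :=
      Finset.card_pos.2 ⟨i0, Finset.mem_filter.2 ⟨hi0, h1 (mem_jn_self U _)⟩⟩
    exact_mod_cast this
  unfold phi at hCc
  have haa : aa k M s v (jn U (v i0)) R U' ≤ M * (2 * k - 2) := by
    unfold aa
    rw [hfr, hs]
    push_cast
    have h5 : (R.card : ℤ) - eps v R U' ≤
        2 * k * ((Module.finrank F U' : ℤ) - Module.finrank F U) - 2 := by linarith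
    have h6 := mul_le_mul_of_nonneg_left h5 hM0
    nlinarith
  have hD : dd v U I W ≤ k * ((Module.finrank F W : ℤ) - Module.finrank F U) := by
    have h5 := hC.2 W (hUU.trans h2)
    have h6 := dd_le_nn v U I W
    linarith
  have hE : nn v R W + 1 ≤ dd v U I W := by
    have h3 : insert (jn U (v i0)) ((R.filter fun i => v i ∈ W).image fun i => jn U (v i)) ⊆
        (I.filter fun i => v i ∈ W).image fun i => jn U (v i) := by
      intro L hL
      rw [Finset.mem_insert] at hL
      rcases hL with rfl | hL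
      · exact Finset.mem_image.2 ⟨i0, Finset.mem_filter.2 ⟨hi0, h2 (mem_jn_self U _)⟩, rfl⟩
      · obtain ⟨r, hr, rfl⟩ := Finset.mem_image.1 hL
        rw [Finset.mem_filter] at hr
        exact Finset.mem_image.2 ⟨r, Finset.mem_filter.2 ⟨hRI hr.1, hr.2⟩, rfl⟩
    have h4 := Finset.card_le_card h3
    rw [Finset.card_insert_of_notMem, Finset.card_image_of_injOn] at h4
    · unfold nn dd
      exact_mod_cast h4
    · exact hinj.mono (by
        intro r hr
        exact (Finset.mem_filter.1 hr).1)
    · intro hL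
      obtain ⟨r, hr, hr2⟩ := Finset.mem_image.1 hL
      exact hR0 r (Finset.mem_filter.1 hr).1 hr2
  have hff : ff k v (jn U (v i0)) R W ≤ k - 1 := by
    unfold ff
    rw [hfr]
    push_cast
    linarith
  have hDD := DD_small (s := s) hk hM0 hff
  linarith

end

section
variable {p N : ℕ} [hp : Fact p.Prime] {ι : Type}

theorem GR_ZF (s : ℤ) (hs : 2 * s ≤ p) (v : ι → Vec p N) (m : ι → ℕ) :
    GR s ((p : ℤ) - s) v m (ZF s v m) := by
  refine ⟨?_, ?_, ?_, ?_, ?_⟩
  · intro U I b b' h hz
    exact ZZs_mono h hz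
  · intro U b hb
    unfold ZF
    rw [Finset.toList_empty]
    exact ZZs_nil hb
  · intro U I b i hi hv hm h1 h2
    exact ZF_insert hi (ZZs_R1 hv (by omega) h1 h2)
  · intro U I b i hi hv hm h1 h2
    exact ZF_insert hi (ZZs_R2 hv (by omega) h1 h2)
  · intro U I b i hi hv hm1 hm h1
    exact ZF_insert hi (ZZs_loop hs hv hm1 hm h1)

/-- non-vanishing for systems in the class -/
theorem nstage {k : ℕ} (hk : 1 ≤ k) (hkp : 6 * (k : ℤ) ^ 2 * (2 * k - 1) ≤ p)
    (v : ι → Vec p N) : ∀ (n : ℕ) (U : Submodule (ZMod p) (Vec p N)) (I : Finset ι),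
      (Module.finrank (ZMod p) (Vec p N) - Module.finrank (ZMod p) U) + I.card = n →
      CC (k : ℤ) v U I → NN v U I := by
  have hk' : (1 : ℤ) ≤ k := by exact_mod_cast hk
  have hM : (1 : ℤ) ≤ 2 * k - 1 := by linarith
  set M : ℤ := 2 * k - 1 with hMdef
  set s : ℤ := 3 * k * M with hsdef
  have hMs : M ≤ s := by nlinarith
  have hkM : 0 ≤ (k : ℤ) * M := mul_nonneg (by linarith) (by linarith)
  have hp2 : s * (2 * (k : ℤ) - 1) ≤ (p : ℤ) - s := by
    have : s * (2 * (k : ℤ) - 1) + s = 6 * (k : ℤ) ^ 2 * M := by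
      rw [hsdef]
      ring
    linarith
  have hs0 : 0 ≤ s := by linarith
  have h2s : 2 * s ≤ p := by nlinarith
  intro n
  induction n using Nat.strong_induction_on with
  | _ n ih =>
    intro U I hn hC
    obtain ⟨W, hUW, hmin⟩ := phi_min hk' v U I
    by_cases hneg : phi (k : ℤ) v U I W < 0
    · have hne : U ≠ W := by
        rintro rfl
        rw [phi_self hC.1] at hneg
        exact lt_irrefl _ hneg
      have hlt : U < W := lt_of_le_of_ne hUW hne
      have hout : ∃ i ∈ I, v i ∉ W := by
        by_contra h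
        push Not at h
        have := phi_all hUW hC h
        linarith
      obtain ⟨i, hi, hiW⟩ := hout
      have hCW := CC_split hUW hmin
      have hfr1 := Submodule.finrank_lt_finrank_of_lt hlt
      have hfr2 := Submodule.finrank_le W
      apply f_NSPLIT p N ι v U W I hUW
      · have hlt : (I.filter fun i => v i ∈ W).card < I.card := by
          apply Finset.card_lt_card
          rw [Finset.filter_ssubset]
          exact ⟨i, hi, hiW⟩
        exact ih _ (by omega) U _ rfl (CC_sub hC (Finset.filter_subset _ _))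
      · have hle : (I.filter fun i => v i ∉ W).card ≤ I.card :=
          Finset.card_le_card (Finset.filter_subset _ _)
        exact ih _ (by omega) W _ rfl hCW
    · have hphi : ∀ W', U ≤ W' → 0 ≤ phi (k : ℤ) v U I W' := fun W' hW' => by
        have := hmin W' hW'
        linarith
      rcases Finset.eq_empty_or_nonempty I with rfl | ⟨i0, hi0⟩
      · refine f_NBASE p N ι v U ∅ (by simp) (by simp) ?_
        rw [Finset.card_empty]
        exact hp.out.one_lt.le
      obtain ⟨R, hR1, hR2, hR3⟩ := MAIN0_rep v U I i0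
      have hlt : (I.erase i0).card < I.card := Finset.card_erase_lt_of_mem hi0
      have hcls : ∀ i ∈ I, ((cls v I U i).card : ℤ) ≤ M := fun i hi => CC_cls hC hi
      have hpM : M * (3 * k - 2) + 1 ≤ p := by nlinarith
      have hMp : M < p := by nlinarith
      refine f_NSTEP p N ι v U I R i0 (fun r => (cls v I U r).card) hC.1 hi0 hR1 hR2 hR3
        (fun r _ => rfl) (fun i hi => by have := hcls i hi; omega) ?_ ?_
      · exact ih _ (by omega) U _ rfl (CC_sub hC (Finset.erase_subset _ _))
      · set m : ι → ℕ := fun r => (cls v I U r).card with hm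
        have hIV : IV (k : ℤ) M s v (jn U (v i0)) R ((p : ℤ) - (cls v I U i0).card) := by
          apply IV_start hk' hM hsdef hC hphi hi0 hR1 hR2 hR3
          have := hcls i0 hi0
          linarith
        have hZ : ZF s v m (jn U (v i0)) R ((p : ℤ) - (cls v I U i0).card) := by
          refine game hk' hM hMs hp2 (GR_ZF s h2s v m) _ _ _ _ rfl (fun i hi => ?_) hIV
          refine ⟨fun h => hR2 i hi (jn_eq_of_mem (hC.1 i (hR1 hi)) h), ?_, hcls i (hR1 hi)⟩
          exact Finset.card_pos.2 ⟨i, self_mem_cls (hR1 hi) (hC.1 i (hR1 hi))⟩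
        refine hZ 0 _ ?_
        have hs := NRULES_sum v U I R i0 m hC.1 hR2 hR3 (fun r _ => rfl)
        have hf := NRULES_finrank U (v i0) (hC.1 i0 hi0)
        have h4 : ((List.map (fun a : Vec p N × ℕ => (a.2 : ℤ))
            (R.toList.map fun i => (v i, m i))).sum) = ((∑ r ∈ R, m r : ℕ) : ℤ) := by
          rw [List.map_map]
          push_cast
          rw [← Finset.sum_map_toList]
          rfl
        rw [h4, hf]
        push_cast
        have hs' : (∑ r ∈ R, (m r : ℤ)) + ((cls v I U i0).card : ℤ) = (I.card : ℤ) := by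
          exact_mod_cast hs
        nlinarith [hs']

end

end Pool.Agent.W61.AJK
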